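import Pool.Agent.H36.CF.Graph

/-!
The strong anti-Ramsey number of the 4-cycle: for `1/4 < ε < 1/2` the number of colours needed for `ε n^2` edges
is superlinear, so the `ε` of the question is at most `1/4`. More: a graph on `n` vertices whose edges have `C n`
colours such that every copy of the 4-cycle is rainbow has density at most `1/2 + o(1)` between any two vertex sets
of linear size.
-/

namespace Pool.Agent.Results.MP_66e4b3_co.AboveQuarter

open Filter

/-- in every copy of the 4-cycle in `G` the four edges have different colours under `f` -/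
def AllC4Rainbow {V : Type} (G : SimpleGraph V) (f : Sym2 V → ℕ) : Prop :=
  ∀ a b c d : V, a ≠ c → b ≠ d → G.Adj a b → G.Adj b c → G.Adj c d → G.Adj d a →
    [f s(a, b), f s(b, c), f s(c, d), f s(d, a)].Nodup

/-- the strong anti-Ramsey number of the 4-cycle: the least `r` such that some graph with `n` vertices and `e`
edges has an edge colouring with `r` colours under which every copy of the 4-cycle is rainbow -/
noncomputable def chiS (n e : ℕ) : ℕ :=
  sInf {r : ℕ | ∃ G : SimpleGraph (Fin n), G.edgeSet.ncard = e ∧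
    ∃ f : Sym2 (Fin n) → ℕ, (∀ x ∈ G.edgeSet, f x < r) ∧ AllC4Rainbow G f}

/-- there is such a graph -/
theorem exists_graph (n e : ℕ) (he : e ≤ n.choose 2) : ∃ r : ℕ, ∃ G : SimpleGraph (Fin n),
    G.edgeSet.ncard = e ∧ ∃ f : Sym2 (Fin n) → ℕ, (∀ x ∈ G.edgeSet, f x < r) ∧ AllC4Rainbow G f := by
  classical
  have h1 : e ≤ (⊤ : SimpleGraph (Fin n)).edgeFinset.card := by
    rw [SimpleGraph.card_edgeFinset_top_eq_card_choose_two, Fintype.card_fin]
    exact he
  obtain ⟨s, hs, hcard⟩ := Finset.exists_subset_card_eq h1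
  set g := Fintype.equivFin (Sym2 (Fin n)) with hg
  refine ⟨Fintype.card (Sym2 (Fin n)), SimpleGraph.fromEdgeSet (s : Set (Sym2 (Fin n))), ?_,
    fun x => (g x : ℕ), fun x _ => (g x).2, ?_⟩
  · have hdiag : ∀ x ∈ s, ¬ x.IsDiag := by
      intro x hx
      have := hs hx
      rw [SimpleGraph.mem_edgeFinset] at this
      exact (⊤ : SimpleGraph (Fin n)).not_isDiag_of_mem_edgeSet this
    have h2 : (s : Set (Sym2 (Fin n))) \ Sym2.diagSet = s := by
      refine sdiff_eq_left.2 ?_
      rw [Set.disjoint_left]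
      intro x hx hx'
      exact hdiag x hx hx'
    rw [SimpleGraph.edgeSet_fromEdgeSet, h2, Set.ncard_coe_finset]
    exact hcard
  · intro a b c d hac hbd hab hbc hcd hda
    have hne : ∀ x y : Sym2 (Fin n), x ≠ y → ((g x : ℕ)) ≠ (g y : ℕ) := by
      intro x y hxy e
      exact hxy (g.injective (Fin.ext e))
    have n1 := hab.ne
    have n2 := hbc.ne
    have n3 := hcd.ne
    have n4 := hda.ne
    have m1 : s(a, b) ≠ s(b, c) := by
      intro e
      rw [Sym2.eq_iff] at e
      rcases e with e | e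
      · exact n1 e.1
      · exact hac e.1
    have m2 : s(a, b) ≠ s(c, d) := by
      intro e
      rw [Sym2.eq_iff] at e
      rcases e with e | e
      · exact hac e.1
      · exact n2 e.2
    have m3 : s(a, b) ≠ s(d, a) := by
      intro e
      rw [Sym2.eq_iff] at e
      rcases e with e | e
      · exact n4 e.1.symm
      · exact hbd e.2
    have m4 : s(b, c) ≠ s(c, d) := by
      intro e
      rw [Sym2.eq_iff] at e
      rcases e with e | e
      · exact n2 e.1
      · exact hbd e.1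
    have m5 : s(b, c) ≠ s(d, a) := by
      intro e
      rw [Sym2.eq_iff] at e
      rcases e with e | e
      · exact hbd e.1
      · exact n1 e.1.symm
    have m6 : s(c, d) ≠ s(d, a) := by
      intro e
      rw [Sym2.eq_iff] at e
      rcases e with e | e
      · exact n3 e.1
      · exact hac e.1.symm
    simp only [List.nodup_cons, List.mem_cons, List.not_mem_nil, or_false, not_or,
      not_false_eq_true, List.nodup_nil, and_true]
    exact ⟨⟨hne _ _ m1, hne _ _ m2, hne _ _ m3⟩, ⟨hne _ _ m4, hne _ _ m5⟩, hne _ _ m6⟩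

/-- the number of ordered adjacent pairs is twice the number of edges -/
theorem pairs {n : ℕ} (G : SimpleGraph (Fin n)) [DecidableRel G.Adj] :
    ((Finset.univ ×ˢ Finset.univ).filter fun p : Fin n × Fin n => G.Adj p.1 p.2).card =
      2 * G.edgeSet.ncard := by
  classical
  have h1 : G.edgeSet.ncard = G.edgeFinset.card := by
    rw [← SimpleGraph.coe_edgeFinset, Set.ncard_coe_finset]
  rw [h1, ← SimpleGraph.sum_degrees_eq_twice_card_edges, Finset.card_filter, Finset.sum_product]
  refine Finset.sum_congr rfl fun v _ => ?_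
  rw [← Finset.card_filter, ← SimpleGraph.card_neighborFinset_eq_degree]
  congr 1
  ext w
  simp

/-- (1) For `1/4 < ε < 1/2`: `χ_s(n, ε n^2, C_4) / n → ∞`. (2) For every `δ > 0` and `C > 0` there is `n₀` such that
for every graph `G` on `n ≥ n₀` vertices whose edges are coloured with at most `C n` colours such that every copy of
the 4-cycle is rainbow, and all vertex sets `A`, `B` with at least `δ n` elements, at most `(1/2 + δ) |A| |B|` of the
pairs `(a, b)`, `a ∈ A`, `b ∈ B`, are adjacent. -/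
theorem result :
    (∀ ε : ℝ, 1 / 4 < ε → ε < 1 / 2 →
      Tendsto (fun n : ℕ => (chiS n ⌊ε * (n : ℝ) ^ 2⌋₊ : ℝ) / n) atTop atTop) ∧
    (∀ δ C : ℝ, 0 < δ → 0 < C → ∃ n₀ : ℕ, ∀ n : ℕ, n₀ ≤ n → ∀ (G : SimpleGraph (Fin n))
      (f : Sym2 (Fin n) → ℕ) (r : ℕ), (r : ℝ) ≤ C * n → (∀ e ∈ G.edgeSet, f e < r) → AllC4Rainbow G f →
        ∀ A B : Finset (Fin n), δ * n ≤ A.card → δ * n ≤ B.card →
          ({p : Fin n × Fin n | p.1 ∈ A ∧ p.2 ∈ B ∧ G.Adj p.1 p.2}.ncard : ℝ) ≤
            (1 / 2 + δ) * (A.card * B.card)) := by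
  classical
  have main : ∀ δ C : ℝ, 0 < δ → 0 < C → ∃ n₀ : ℕ, ∀ n : ℕ, n₀ ≤ n → ∀ (G : SimpleGraph (Fin n))
      (f : Sym2 (Fin n) → ℕ) (r : ℕ), (r : ℝ) ≤ C * n → (∀ e ∈ G.edgeSet, f e < r) → AllC4Rainbow G f →
        ∀ A B : Finset (Fin n), δ * n ≤ A.card → δ * n ≤ B.card →
          (((A ×ˢ B).filter fun p => G.Adj p.1 p.2).card : ℝ) ≤ (1 / 2 + δ) * (A.card * B.card) := by
    intro δ C hδ hC
    obtain ⟨n₀, h⟩ := Pool.Agent.H36.CF.local_density hδ hC
    refine ⟨n₀, ?_⟩
    intro n hn G f r hr hf hG A B hA hB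
    have := h n hn G f r hr hf hG A B hA hB
    convert this using 4
  refine ⟨?_, ?_⟩
  · intro ε h1 h2
    rw [tendsto_atTop]
    intro K
    set C : ℝ := max K 1 with hC
    have hC0 : 0 < C := lt_of_lt_of_le one_pos (le_max_right _ _)
    set δ : ℝ := (ε - 1 / 4) with hδ
    have hδ0 : 0 < δ := by rw [hδ]; linarith
    obtain ⟨n₀, hn₀⟩ := main δ C hδ0 hC0
    obtain ⟨n₁, hn₁⟩ := exists_nat_gt (1 / (1 / 2 - ε))
    obtain ⟨n₂, hn₂⟩ := exists_nat_gt (2 / δ)
    filter_upwards [eventually_ge_atTop (n₀ + n₁ + n₂ + 1)] with n hn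
    have hn1 : (1 : ℝ) ≤ n := by exact_mod_cast (by omega : 1 ≤ n)
    have hnn1 : 1 / (1 / 2 - ε) < n := lt_of_lt_of_le hn₁ (by exact_mod_cast (by omega : n₁ ≤ n))
    have hnn2 : 2 / δ < n := lt_of_lt_of_le hn₂ (by exact_mod_cast (by omega : n₂ ≤ n))
    rw [div_lt_iff₀ (by linarith)] at hnn1
    rw [div_lt_iff₀ hδ0] at hnn2
    set e : ℕ := ⌊ε * (n : ℝ) ^ 2⌋₊ with he
    have hε0 : 0 < ε := by linarith
    have he1 : (e : ℝ) ≤ ε * (n : ℝ) ^ 2 := Nat.floor_le (by positivity)
    have he2 : ε * (n : ℝ) ^ 2 < e + 1 := Nat.lt_floor_add_one _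
    have hchoose : e ≤ n.choose 2 := by
      have h3 : ((n.choose 2 : ℕ) : ℝ) = n * (n - 1) / 2 := Nat.cast_choose_two ℝ n
      have h4 : (e : ℝ) ≤ ((n.choose 2 : ℕ) : ℝ) := by
        rw [h3]
        nlinarith
      exact_mod_cast h4
    have hne : {r : ℕ | ∃ G : SimpleGraph (Fin n), G.edgeSet.ncard = e ∧
        ∃ f : Sym2 (Fin n) → ℕ, (∀ x ∈ G.edgeSet, f x < r) ∧ AllC4Rainbow G f}.Nonempty :=
      exists_graph n e hchoose
    obtain ⟨G, hGe, f, hf, hG⟩ := Nat.sInf_mem hne
    have hchi : chiS n e = sInf {r : ℕ | ∃ G : SimpleGraph (Fin n), G.edgeSet.ncard = e ∧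
        ∃ f : Sym2 (Fin n) → ℕ, (∀ x ∈ G.edgeSet, f x < r) ∧ AllC4Rainbow G f} := rfl
    rw [← hchi] at hf
    have hgoal : C ≤ (chiS n e : ℝ) / n := by
      by_contra hcon
      push Not at hcon
      rw [div_lt_iff₀ (by linarith)] at hcon
      have hδ1 : δ ≤ 1 := by rw [hδ]; linarith
      have hcard : ((Finset.univ : Finset (Fin n)).card : ℝ) = n := by
        rw [Finset.card_univ, Fintype.card_fin]
      have h5 := hn₀ n (by omega) G f (chiS n e) hcon.le hf hG Finset.univ Finset.univ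
        (by rw [hcard]; nlinarith) (by rw [hcard]; nlinarith)
      rw [pairs G, hGe, hcard] at h5
      push_cast at h5
      have h6 : ε = δ + 1 / 4 := by rw [hδ]; ring
      rw [h6] at he2
      nlinarith
    exact (le_max_left _ _).trans hgoal
  · intro δ C hδ hC
    obtain ⟨n₀, h⟩ := main δ C hδ hC
    refine ⟨n₀, ?_⟩
    intro n hn G f r hr hf hG A B hA hB
    have h3 := h n hn G f r hr hf hG A B hA hB
    have h4 : {p : Fin n × Fin n | p.1 ∈ A ∧ p.2 ∈ B ∧ G.Adj p.1 p.2} =
        (((A ×ˢ B).filter fun p => G.Adj p.1 p.2 : Finset (Fin n × Fin n)) : Set (Fin n × Fin n)) := by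
      ext p
      simp [and_assoc]
    rw [h4, Set.ncard_coe_finset]
    exact h3

end Pool.Agent.Results.MP_66e4b3_co.AboveQuarter
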